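import Pool.Agent.H65.PK.Targets

/-!
# Row NOP of the board pker: number operators (helper78)
-/

set_option autoImplicit false

open Module

namespace Pool.Agent.H78.PKER

open Pool.Agent.H65.PK

section

variable {ι R : Type} [DecidableEq ι] [AddCommGroup R] [Module ℚ R] {F G : ι → Module.End ℚ R}

lemma n_sq {A : Type} [Ring A] [Algebra ℚ A] {x : A} (h : x * x + x * x = 0) : x * x = 0 := by
  have h1 : (2 : ℚ) • (x * x) = 0 := by
    rw [two_smul]
    exact h
  have h2 := congrArg (fun y => (2⁻¹ : ℚ) • y) h1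
  simpa only [smul_smul, inv_mul_cancel₀ (two_ne_zero : (2 : ℚ) ≠ 0), one_smul, smul_zero] using h2

lemma n_FF (h : CAR F G) (s : ι) : F s * F s = 0 := n_sq (h.ff s s)

lemma n_GG (h : CAR F G) (s : ι) : G s * G s = 0 := n_sq (h.gg s s)

lemma n_one (h : CAR F G) (s : ι) : F s * G s = 1 - G s * F s := by
  have := h.fg s s
  rw [if_pos rfl] at this
  exact eq_sub_of_add_eq this

lemma n_anti (h : CAR F G) {s s' : ι} (hne : s ≠ s') : F s * G s' = -(G s' * F s) := by
  have := h.fg s s'
  rw [if_neg hne] at this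
  exact eq_neg_of_add_eq_zero_left this

lemma n_fan (h : CAR F G) (s s' : ι) : F s * F s' = -(F s' * F s) :=
  eq_neg_of_add_eq_zero_left (h.ff s s')

lemma n_gan (h : CAR F G) (s s' : ι) : G s * G s' = -(G s' * G s) :=
  eq_neg_of_add_eq_zero_left (h.gg s s')

/-- a number operator and a different annihilation operator commute -/
lemma n_cF (h : CAR F G) {s s' : ι} (hne : s ≠ s') : G s * F s * F s' = F s' * (G s * F s) := by
  rw [mul_assoc, n_fan h s s', mul_neg, ← mul_assoc, ← mul_assoc, n_anti h (Ne.symm hne)]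
  noncomm_ring

lemma n_cG (h : CAR F G) {s s' : ι} (hne : s ≠ s') : G s * F s * G s' = G s' * (G s * F s) := by
  rw [mul_assoc, n_anti h hne, mul_neg, ← mul_assoc, ← mul_assoc, n_gan h s s']
  noncomm_ring

lemma n_eF (h : CAR F G) (s : ι) : G s * F s * F s = F s * (G s * F s) - F s := by
  rw [mul_assoc, n_FF h s, mul_zero, ← mul_assoc, n_one h s, sub_mul, one_mul, mul_assoc,
    n_FF h s, mul_zero]
  noncomm_ring

lemma n_eG (h : CAR F G) (s : ι) : G s * F s * G s = G s * (G s * F s) + G s := by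
  rw [mul_assoc, n_one h s, mul_sub, mul_one, ← mul_assoc, n_GG h s]
  noncomm_ring

lemma n_idem (h : CAR F G) (s : ι) : G s * F s * (G s * F s) = G s * F s := by
  rw [← mul_assoc, n_eG h s, ← mul_assoc, n_GG h s, zero_mul, zero_add]

lemma n_com (h : CAR F G) (s s' : ι) :
    G s * F s * (G s' * F s') = G s' * F s' * (G s * F s) := by
  by_cases hne : s = s'
  · subst hne
    rfl
  · rw [← mul_assoc, n_cG h hne, mul_assoc, n_cF h hne, ← mul_assoc]

lemma n_y2 (h : CAR F G) (s : ι) : (F s + G s) * (F s + G s) = 1 := by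
  rw [add_mul, mul_add, mul_add, n_FF h s, n_GG h s, n_one h s]
  noncomm_ring

lemma n_c2 (h : CAR F G) (s : ι) (c : ℚ) : (c • F s + G s) * (c • F s + G s) = c • 1 := by
  rw [add_mul, mul_add, mul_add, smul_mul_smul_comm, n_FF h s, n_GG h s, smul_zero, zero_add,
    add_zero, smul_mul_assoc, mul_smul_comm, n_one h s, ← smul_add]
  congr 1
  noncomm_ring

end

theorem pf_NOP : T_NOP := by
  intro p q R _ _ c F G h
  have hinl : ∀ s s' : Fin p, s ≠ s' → (Sum.inl s : Fin p ⊕ Fin q) ≠ Sum.inl s' := fun s s' hs e =>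
    hs (Sum.inl_injective e)
  have hinr : ∀ (s : Fin p) (t : Fin q), (Sum.inl s : Fin p ⊕ Fin q) ≠ Sum.inr t :=
    fun s t e => Sum.inl_ne_inr e
  refine ⟨fun s => n_idem h _, fun s s' => n_com h _ _, ?_, ?_, ?_, ?_, ?_⟩
  · intro s
    show (∑ s', PP F G s') * F (Sum.inl s) = F (Sum.inl s) * (∑ s', PP F G s') - F (Sum.inl s)
    rw [Finset.sum_mul, Finset.mul_sum]
    have h1 : ∀ s' : Fin p, PP F G s' * F (Sum.inl s) =
        F (Sum.inl s) * PP F G s' - if s' = s then F (Sum.inl s) else 0 := by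
      intro s'
      by_cases hs : s' = s
      · subst hs
        rw [if_pos rfl]
        exact n_eF h _
      · rw [if_neg hs, sub_zero]
        exact n_cF h (hinl _ _ hs)
    rw [Finset.sum_congr rfl fun s' _ => h1 s', Finset.sum_sub_distrib, Finset.sum_ite_eq']
    simp
  · intro s
    show (∑ s', PP F G s') * G (Sum.inl s) = G (Sum.inl s) * (∑ s', PP F G s') + G (Sum.inl s)
    rw [Finset.sum_mul, Finset.mul_sum]
    have h1 : ∀ s' : Fin p, PP F G s' * G (Sum.inl s) =
        G (Sum.inl s) * PP F G s' + if s' = s then G (Sum.inl s) else 0 := by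
      intro s'
      by_cases hs : s' = s
      · subst hs
        rw [if_pos rfl]
        exact n_eG h _
      · rw [if_neg hs, add_zero]
        exact n_cG h (hinl _ _ hs)
    rw [Finset.sum_congr rfl fun s' _ => h1 s', Finset.sum_add_distrib, Finset.sum_ite_eq']
    simp
  · intro t
    show (∑ s', PP F G s') * (c t • F (Sum.inr t) + G (Sum.inr t)) =
      (c t • F (Sum.inr t) + G (Sum.inr t)) * (∑ s', PP F G s')
    rw [Finset.sum_mul, Finset.mul_sum]
    refine Finset.sum_congr rfl fun s' _ => ?_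
    have h1 : PP F G s' * F (Sum.inr t) = F (Sum.inr t) * PP F G s' := n_cF h (hinr s' t)
    have h2 : PP F G s' * G (Sum.inr t) = G (Sum.inr t) * PP F G s' := n_cG h (hinr s' t)
    rw [mul_add, add_mul, mul_smul_comm, smul_mul_assoc, h1, h2]
  · intro s
    refine ⟨n_y2 h _, ?_⟩
    show G (Sum.inl s) * F (Sum.inl s) * (F (Sum.inl s) + G (Sum.inl s)) +
      (F (Sum.inl s) + G (Sum.inl s)) * (G (Sum.inl s) * F (Sum.inl s)) =
      F (Sum.inl s) + G (Sum.inl s)
    rw [mul_add, add_mul, n_eF h, n_eG h]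
    have h1 : F (Sum.inl s) * (G (Sum.inl s) * F (Sum.inl s)) = F (Sum.inl s) := by
      rw [← mul_assoc, n_one h, sub_mul, one_mul, mul_assoc, n_FF h, mul_zero, sub_zero]
    have h2 : G (Sum.inl s) * (G (Sum.inl s) * F (Sum.inl s)) = 0 := by
      rw [← mul_assoc, n_GG h, zero_mul]
    rw [h1, h2]
    abel
  · intro hc hpq s
    by_cases hex : ∃ s' : Fin p, s' ≠ s
    · obtain ⟨s', hs'⟩ := hex
      refine ⟨fun e => (if e = Sum.inl s' then 1 else 0) + if e = Sum.inr (Sum.inl s') then 1 else 0,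
        1, one_ne_zero, ?_⟩
      have h1 : (∑ e, ((if e = Sum.inl s' then (1 : ℚ) else 0) +
          if e = Sum.inr (Sum.inl s') then (1 : ℚ) else 0) • gen c F G e) =
          F (Sum.inl s') + G (Sum.inl s') := by
        simp only [add_smul, Finset.sum_add_distrib, ite_smul, one_smul, zero_smul,
          Finset.sum_ite_eq', Finset.mem_univ, if_true]
        rfl
      rw [h1]
      refine ⟨by rw [n_y2 h, one_smul], ?_⟩
      rw [mul_add, add_mul]
      have h2 : PP F G s * F (Sum.inl s') = F (Sum.inl s') * PP F G s :=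
        n_cF h (hinl _ _ (Ne.symm hs'))
      have h3 : PP F G s * G (Sum.inl s') = G (Sum.inl s') * PP F G s :=
        n_cG h (hinl _ _ (Ne.symm hs'))
      rw [h2, h3]
    · push Not at hex
      have hq : 0 < q := by
        by_contra hq0
        have hp2 : 2 ≤ p := by omega
        have e1 := hex ⟨0, by omega⟩
        have e2 := hex ⟨1, by omega⟩
        have e3 := e1.trans e2.symm
        simp at e3
      set t : Fin q := ⟨0, hq⟩
      refine ⟨fun e => if e = Sum.inr (Sum.inr t) then 1 else 0, c t, hc t, ?_⟩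
      have h1 : (∑ e, (if e = Sum.inr (Sum.inr t) then (1 : ℚ) else 0) • gen c F G e) =
          c t • F (Sum.inr t) + G (Sum.inr t) := by
        simp only [ite_smul, one_smul, zero_smul, Finset.sum_ite_eq', Finset.mem_univ, if_true]
        rfl
      rw [h1]
      refine ⟨n_c2 h _ _, ?_⟩
      have h2 : PP F G s * F (Sum.inr t) = F (Sum.inr t) * PP F G s := n_cF h (hinr s t)
      have h3 : PP F G s * G (Sum.inr t) = G (Sum.inr t) * PP F G s := n_cG h (hinr s t)
      rw [mul_add, add_mul, mul_smul_comm, smul_mul_assoc, h2, h3]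

end Pool.Agent.H78.PKER
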